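import Pool.Agent.R963.GK.Key

/-!
MP_499f6d_pr, Q1: full answer (TRUE). All three statements (a), (b), (c) hold.
-/

open Filter Topology
open scoped ENNReal

set_option maxHeartbeats 400000

namespace GK

lemma g_pos {k : ℕ} (hk : 1 ≤ k) (r : ℝ) : 0 < g k r := by
  unfold g
  apply div_pos _ (S_pos hk r)
  apply Real.rpow_pos_of_pos
  have : (1 : ℝ) ≤ k := by exact_mod_cast hk
  linarith

/-- if `g(·;r)` is maximal at `K` then `s(r) = g(K;r)`. -/
lemma s_eq {r : ℝ} (hr : 1 ≤ r) {K : ℕ} (hK : 1 ≤ K) (hmax : ∀ j, 1 ≤ j → g j r ≤ g K r) :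
    s r = ENNReal.ofReal (g K r) := by
  apply le_antisymm
  · apply s_le (by linarith) (g_pos hK r).le
    intro k m hm hmk
    obtain ⟨j, hj, h⟩ := key hr hm hmk
    exact h.trans (mul_le_mul_of_nonneg_right (hmax j hj) (S_nonneg k r))
  · exact s_ge (by linarith) hK

variable {rr : ℕ → ℝ} (hrr : ∀ k, 1 ≤ k → g k (rr k) = g (k + 1) (rr k))

include hrr

lemma dec_of_lt {k : ℕ} (hk : 1 ≤ k) {r : ℝ} (h : r < rr k) : g (k + 1) r < g k r := by
  by_contra hcon
  have h2 := cross hk h (not_lt.mp hcon)
  rw [hrr k hk] at h2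
  exact lt_irrefl _ h2

lemma inc_of_gt {k : ℕ} (hk : 1 ≤ k) {r : ℝ} (h : rr k < r) : g k r < g (k + 1) r :=
  cross hk h (hrr k hk).le

lemma one_le_rr {k : ℕ} (hk : 1 ≤ k) : 1 ≤ rr k := by
  by_contra hcon
  have := inc_of_gt hrr hk (not_le.mp hcon)
  exact absurd (at_one hk) (not_le.mpr this)

lemma rr_one : rr 1 = 1 := by
  apply le_antisymm
  · by_contra hcon
    have := dec_of_lt hrr le_rfl (not_le.mp hcon)
    rw [at_one_eq.1, show (1 + 1 : ℕ) = 2 from rfl, at_one_eq.2] at this
    exact lt_irrefl _ this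
  · exact one_le_rr hrr le_rfl

lemma rr_lt {k : ℕ} (hk : 1 ≤ k) : rr k < rr (k + 1) := by
  by_contra hcon
  have h1 := uni hk (one_le_rr hrr hk) (hrr k hk).ge
  rcases eq_or_lt_of_le (not_lt.mp hcon) with h | h
  · have h2 := hrr (k + 1) (by omega)
    rw [h] at h2
    rw [show k + 1 + 1 = k + 2 from rfl] at h2
    exact absurd h2 h1.ne'
  · have h2 := inc_of_gt hrr (k := k + 1) (by omega) h
    exact absurd h2 (not_lt.mpr h1.le)

lemma rr_mono {j k : ℕ} (hj : 1 ≤ j) (hjk : j ≤ k) : rr j ≤ rr k := by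
  induction k, hjk using Nat.le_induction with
  | base => exact le_rfl
  | succ k hk ih => exact ih.trans (rr_lt hrr (by omega)).le

lemma rr_tendsto : Tendsto (fun k : ℕ => rr k / (k * Real.log 3)) atTop (𝓝 1) := by
  have hl : 0 < Real.log 3 := Real.log_pos (by norm_num)
  rw [tendsto_order]
  constructor
  · intro a ha
    set b : ℝ := max a (1 / 2) with hb
    have hb1 : b < 1 := max_lt ha (by norm_num)
    have hb0 : 0 < b := lt_of_lt_of_le (by norm_num) (le_max_right a (1 / 2))
    filter_upwards [asym_lo (ρ := b * Real.log 3) (by positivity) (by nlinarith),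
      eventually_ge_atTop 1] with k hk hk1
    have hk1' : (0 : ℝ) < k := by exact_mod_cast hk1
    have h1 : b * Real.log 3 * k < rr k := by
      by_contra hcon
      rcases eq_or_lt_of_le (not_lt.mp hcon) with h | h
      · rw [← h, hrr k hk1] at hk
        exact lt_irrefl _ hk
      · exact absurd (inc_of_gt hrr hk1 h) (not_lt.mpr hk.le)
    refine lt_of_le_of_lt (le_max_left a (1 / 2)) ?_
    rw [lt_div_iff₀ (by positivity)]
    calc b * (k * Real.log 3) = b * Real.log 3 * k := by ring
      _ < rr k := h1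
  · intro a ha
    filter_upwards [asym_hi (ρ := a * Real.log 3) (by nlinarith),
      eventually_ge_atTop 1] with k hk hk1
    have hk1' : (0 : ℝ) < k := by exact_mod_cast hk1
    have h1 : rr k < a * Real.log 3 * k := by
      by_contra hcon
      rcases eq_or_lt_of_le (not_lt.mp hcon) with h | h
      · rw [h, hrr k hk1] at hk
        exact lt_irrefl _ hk
      · exact absurd (dec_of_lt hrr hk1 h) (not_lt.mpr hk.le)
    rw [div_lt_iff₀ (by positivity)]
    calc rr k < a * Real.log 3 * k := h1
      _ = a * (k * Real.log 3) := by ring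

lemma rr_atTop : Tendsto rr atTop atTop := by
  have hl : 0 < Real.log 3 := Real.log_pos (by norm_num)
  have h1 := rr_tendsto hrr
  have h2 : Tendsto (fun k : ℕ => (k : ℝ) * Real.log 3) atTop atTop :=
    tendsto_natCast_atTop_atTop.atTop_mul_const hl
  have h3 := h1.pos_mul_atTop one_pos h2
  refine h3.congr' ?_
  filter_upwards [eventually_ge_atTop 1] with k hk
  have hk1' : (0 : ℝ) < k := by exact_mod_cast hk
  field_simp

/-- for `rr (k-1) < r < rr k` the maximum of `g(·;r)` is attained exactly at `k`. -/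
lemma strict_max {k : ℕ} (hk : 1 ≤ k) {r : ℝ} (h1 : ∀ j, 1 ≤ j → j < k → rr j < r) (h2 : r < rr k)
    {j : ℕ} (hj : 1 ≤ j) (hjk : j ≠ k) : g j r < g k r := by
  rcases lt_or_gt_of_ne hjk with h | h
  · -- j < k
    have key : ∀ n, j < n → n ≤ k → g j r < g n r := by
      intro n hn
      induction n, hn using Nat.le_induction with
      | base =>
        intro hnk
        exact inc_of_gt hrr hj (h1 j hj (by omega))
      | succ n hn ih =>
        intro hnk
        exact (ih (by omega)).trans (inc_of_gt hrr (by omega) (h1 n (by omega) (by omega)))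
    exact key k h le_rfl
  · have key : ∀ n, k < n → g n r < g k r := by
      intro n hn
      induction n, hn using Nat.le_induction with
      | base => exact dec_of_lt hrr hk h2
      | succ n hn ih =>
        exact (dec_of_lt hrr (by omega) (h2.trans_le (rr_mono hrr hk (by omega)))).trans ih
    exact key j h

omit hrr in
theorem ofReal_ne {j k : ℕ} {r : ℝ} (hk : 1 ≤ k) (h : g j r < g k r) :
    ENNReal.ofReal (g k r) ≠ ENNReal.ofReal (g j r) :=
  ((ENNReal.ofReal_lt_ofReal_iff (g_pos hk r)).mpr h).ne'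

end GK

namespace Pool.Agent.Results.MP_499f6d_pr.CrossingPoints

open GK

/-- **MP_499f6d_pr, Q1 (full answer: TRUE).** `(a)`: each equation `g(k;r) = g(k+1;r)` has exactly
one real solution; the solutions `r_k` satisfy `r_1 = 1`, `r_k ≥ 1`, they are strictly increasing,
tend to infinity, and `r_k / (k log 3) → 1`.  `(b)`: for `k ≥ 2` and `r_{k-1} < r < r_k`,
`s(r) = g(k;r)` and `s(r) ≠ g(j;r)` for `j ≠ k`.  `(c)`: `s(r_k) = g(j;r_k)` iff `j ∈ {k, k+1}`. -/
theorem result :
    (∀ k : ℕ, 1 ≤ k → ∃! r : ℝ, g k r = g (k + 1) r) ∧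
    ∀ rr : ℕ → ℝ, (∀ k, 1 ≤ k → g k (rr k) = g (k + 1) (rr k)) →
      (rr 1 = 1 ∧ (∀ k, 1 ≤ k → 1 ≤ rr k) ∧ (∀ k, 1 ≤ k → rr k < rr (k + 1)) ∧
        Tendsto rr atTop atTop ∧
        Tendsto (fun k : ℕ => rr k / (k * Real.log 3)) atTop (𝓝 1)) ∧
      (∀ k, 2 ≤ k → ∀ r : ℝ, rr (k - 1) < r → r < rr k →
        s r = ENNReal.ofReal (g k r) ∧
          ∀ j, 1 ≤ j → j ≠ k → s r ≠ ENNReal.ofReal (g j r)) ∧
      (∀ k, 1 ≤ k → ∀ j, 1 ≤ j →
        (s (rr k) = ENNReal.ofReal (g j (rr k)) ↔ j = k ∨ j = k + 1)) := by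
  refine ⟨fun k hk => exists_eq hk, fun rr hrr => ⟨⟨rr_one hrr, fun k hk => one_le_rr hrr hk,
    fun k hk => rr_lt hrr hk, rr_atTop hrr, rr_tendsto hrr⟩, ?_, ?_⟩⟩
  · intro k hk r h1 h2
    have hk1 : 1 ≤ k := by omega
    have hr1 : 1 ≤ r := (one_le_rr hrr (k := k - 1) (by omega)).trans h1.le
    have hlow : ∀ j, 1 ≤ j → j < k → rr j < r := fun j hj hjk =>
      (rr_mono hrr hj (by omega : j ≤ k - 1)).trans_lt h1
    have hmax : ∀ j, 1 ≤ j → j ≠ k → g j r < g k r := fun j hj hjk =>
      strict_max hrr hk1 hlow h2 hj hjk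
    have hs : s r = ENNReal.ofReal (g k r) := by
      apply s_eq hr1 hk1
      intro j hj
      rcases eq_or_ne j k with h | h
      · rw [h]
      · exact (hmax j hj h).le
    refine ⟨hs, fun j hj hjk => ?_⟩
    rw [hs]
    exact ofReal_ne hk1 (hmax j hj hjk)
  · intro k hk j hj
    set r := rr k with hr
    have hr1 : 1 ≤ r := one_le_rr hrr hk
    have hlow : ∀ i, 1 ≤ i → i < k → g i r < g k r := by
      intro i hi hik
      have key : ∀ n, i < n → n ≤ k → g i r < g n r := by
        intro n hn
        induction n, hn using Nat.le_induction with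
        | base =>
          intro hnk
          exact inc_of_gt hrr hi ((rr_lt hrr hi).trans_le (rr_mono hrr (by omega) (by omega)))
        | succ n hn ih =>
          intro hnk
          exact (ih (by omega)).trans (inc_of_gt hrr (by omega)
            ((rr_lt hrr (by omega)).trans_le (rr_mono hrr (by omega) (by omega))))
      exact key k hik le_rfl
    have hhigh : ∀ i, k + 1 < i → g i r < g (k + 1) r := by
      intro i hi
      have hr2 : r < rr (k + 1) := rr_lt hrr hk
      induction i, hi using Nat.le_induction with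
      | base => exact dec_of_lt hrr (by omega) hr2
      | succ n hn ih =>
        exact (dec_of_lt hrr (by omega) (hr2.trans_le (rr_mono hrr (by omega) (by omega)))).trans ih
    have heq : g k r = g (k + 1) r := hrr k hk
    have hs : s r = ENNReal.ofReal (g k r) := by
      apply s_eq hr1 hk
      intro i hi
      rcases lt_trichotomy i k with h | h | h
      · exact (hlow i hi h).le
      · rw [h]
      · rcases eq_or_lt_of_le (Nat.succ_le_of_lt h) with h' | h'
        · rw [← h', Nat.succ_eq_add_one, heq]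
        · rw [heq]
          exact (hhigh i h').le
    constructor
    · intro h
      by_contra hcon
      push Not at hcon
      rw [hs] at h
      rcases lt_trichotomy j k with h' | h' | h'
      · exact ofReal_ne hk (hlow j hj h') h
      · exact hcon.1 h'
      · rcases eq_or_lt_of_le (Nat.succ_le_of_lt h') with h'' | h''
        · exact hcon.2 h''.symm
        · refine ofReal_ne hk ?_ h
          rw [heq]
          exact hhigh j h''
    · rintro (h | h)
      · rw [h, hs]
      · rw [h, hs, heq]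

end Pool.Agent.Results.MP_499f6d_pr.CrossingPoints
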